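import Pool.Agent.Helper87_Leo4.Vol2

/-!
# VOL: the volume of the region, assembly
-/

set_option autoImplicit false

open MeasureTheory Set Function Polynomial

namespace Pool.Agent.Leo4.H87

/-- `(b/a, P, M)` -/
noncomputable def ph (w : ℝ × ℝ × ℝ × ℝ) : ℝ × ℝ × ℝ := (w.2.1 / w.1, rP w, rM w)

theorem measurable_rP : Measurable rP := by unfold rP; fun_prop

theorem measurable_rM : Measurable rM := by unfold rM; fun_prop

theorem measurable_rX : Measurable rX := by unfold rX; fun_prop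

theorem measurable_ph : Measurable ph := by
  unfold ph
  have h1 := measurable_rP
  have h2 := measurable_rM
  fun_prop

def A1 : Set (ℝ × ℝ × ℝ × ℝ) := {w | 0 < w.1 ∧ 0 ≤ rX w ∧ 0 < rP w ∧ 0 < rM w}

def A2 : Set (ℝ × ℝ × ℝ × ℝ) := {w | w.1 ≠ 0 ∧ 0 < rP w ∧ 0 < rM w}

def Qd : Set (ℝ × ℝ × ℝ) := {u | 0 < u.2.1 ∧ 0 < u.2.2}

theorem measurableSet_A1 : MeasurableSet A1 := by
  have h1 : MeasurableSet {w : ℝ × ℝ × ℝ × ℝ | 0 < w.1} :=
    measurableSet_lt measurable_const measurable_fst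
  have h2 : MeasurableSet {w : ℝ × ℝ × ℝ × ℝ | 0 ≤ rX w} :=
    measurableSet_le measurable_const measurable_rX
  have h3 : MeasurableSet {w : ℝ × ℝ × ℝ × ℝ | 0 < rP w} :=
    measurableSet_lt measurable_const measurable_rP
  have h4 : MeasurableSet {w : ℝ × ℝ × ℝ × ℝ | 0 < rM w} :=
    measurableSet_lt measurable_const measurable_rM
  exact h1.inter (h2.inter (h3.inter h4))

theorem measurableSet_A2 : MeasurableSet A2 := by
  have h1 : MeasurableSet {w : ℝ × ℝ × ℝ × ℝ | w.1 = 0} :=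
    measurableSet_eq_fun measurable_fst measurable_const
  have h3 : MeasurableSet {w : ℝ × ℝ × ℝ × ℝ | 0 < rP w} :=
    measurableSet_lt measurable_const measurable_rP
  have h4 : MeasurableSet {w : ℝ × ℝ × ℝ × ℝ | 0 < rM w} :=
    measurableSet_lt measurable_const measurable_rM
  exact h1.compl.inter (h3.inter h4)

theorem measurableSet_Qd : MeasurableSet Qd := by
  have h3 : MeasurableSet {w : ℝ × ℝ × ℝ | 0 < w.2.1} :=
    measurableSet_lt measurable_const (by fun_prop)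
  have h4 : MeasurableSet {w : ℝ × ℝ × ℝ | 0 < w.2.2} :=
    measurableSet_lt measurable_const (by fun_prop)
  exact h3.inter h4

/-- the conditions in terms of `(b/a, P, M)` -/
def Es : Set ((ℝ × ℝ × ℝ) × (ℝ × ℝ × ℝ)) := {q | (q.1.1, q.2.1) ∈ Pl ∧ (q.1.2, q.2.2) ∈ Bs}

theorem measurableSet_Es : MeasurableSet Es := by
  have h1 : Measurable (fun q : (ℝ × ℝ × ℝ) × (ℝ × ℝ × ℝ) => (q.1.1, q.2.1)) := by fun_prop
  have h2 : Measurable (fun q : (ℝ × ℝ × ℝ) × (ℝ × ℝ × ℝ) => (q.1.2, q.2.2)) := by fun_prop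
  exact (h1 measurableSet_Pl).inter (h2 measurableSet_Bs)

/-- the open region -/
def Ss : Set R8 := {w | w.1 ∈ A1 ∧ w.2 ∈ A2 ∧ (ph w.1, ph w.2) ∈ Es}

theorem measurableSet_Ss : MeasurableSet Ss := by
  have h1 : Measurable (fun w : R8 => w.1) := measurable_fst
  have h2 : Measurable (fun w : R8 => w.2) := measurable_snd
  have h3 : Measurable (fun w : R8 => (ph w.1, ph w.2)) :=
    (measurable_ph.comp measurable_fst).prodMk (measurable_ph.comp measurable_snd)
  exact (h1 measurableSet_A1).inter ((h2 measurableSet_A2).inter (h3 measurableSet_Es))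

theorem null_last (s : Set (ℝ × ℝ × ℝ × ℝ)) (hs : MeasurableSet s)
    (h : ∀ a b c : ℝ, volume {d : ℝ | (a, b, c, d) ∈ s} = 0) : volume s = 0 := by
  rw [Measure.volume_eq_prod, Measure.measure_prod_null hs]
  filter_upwards with a
  have hs1 : MeasurableSet (Prod.mk a ⁻¹' s) := measurable_prodMk_left hs
  rw [Measure.volume_eq_prod, Pi.zero_apply, Measure.measure_prod_null hs1]
  filter_upwards with b
  have hs2 : MeasurableSet (Prod.mk b ⁻¹' (Prod.mk a ⁻¹' s)) := measurable_prodMk_left hs1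
  rw [Measure.volume_eq_prod, Pi.zero_apply, Measure.measure_prod_null hs2]
  filter_upwards with c
  exact h a b c

/-- the discriminant vanishes on a null set -/
theorem null_rM : volume {w : ℝ × ℝ × ℝ × ℝ | w.1 ≠ 0 ∧ rM w = 0} = 0 := by
  apply null_last
  · have h1 : MeasurableSet {w : ℝ × ℝ × ℝ × ℝ | w.1 = 0} :=
      measurableSet_eq_fun measurable_fst measurable_const
    have h2 : MeasurableSet {w : ℝ × ℝ × ℝ × ℝ | rM w = 0} :=
      measurableSet_eq_fun measurable_rM measurable_const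
    exact h1.compl.inter h2
  · intro a b c
    by_cases ha : a = 0
    · have : {d : ℝ | (a, b, c, d) ∈ {w : ℝ × ℝ × ℝ × ℝ | w.1 ≠ 0 ∧ rM w = 0}} = ∅ := by
        rw [eq_empty_iff_forall_notMem]
        intro d hd
        exact hd.1 ha
      rw [this, measure_empty]
    · set p : ℝ[X] := C (-a ^ 2) * X ^ 2 + C (2 * a * b * c - 4 * (b ^ 2 - a * c) * b) * X +
        C (4 * (b ^ 2 - a * c) * c ^ 2 - b ^ 2 * c ^ 2) with hp
      have hp0 : p ≠ 0 := by
        intro h0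
        have h1 := congrArg (fun q : ℝ[X] => q.coeff 2) h0
        simp only [hp, coeff_add, coeff_C_mul, coeff_X_pow, coeff_C, coeff_X, coeff_zero] at h1
        norm_num at h1
        exact ha h1
      refine Set.Finite.measure_zero ((Polynomial.finite_setOf_isRoot hp0).subset ?_) _
      intro d hd
      have h1 : rM (a, b, c, d) = 0 := hd.2
      change p.IsRoot d
      rw [IsRoot.def, hp]
      simp only [eval_add, eval_mul, eval_C, eval_pow, eval_X]
      rw [← h1]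
      unfold rM
      ring

theorem reg_subset (C' η : ℝ) (hη : 0 < η) :
    Reg C' η ⊆ Ss ∪ ({w : ℝ × ℝ × ℝ × ℝ | w.1 ≠ 0 ∧ rM w = 0} ×ˢ univ) := by
  rintro w ⟨h1, -, -, h4, ⟨s, t, hs0, hs1, ht0, ht1, hb1, hb2⟩, hX, hP, hM, h5, h6⟩
  have ha : w.1.1 * w.2.1 ≠ 0 := by
    intro h
    rw [h, abs_zero] at h4
    linarith
  have ha1 : w.1.1 ≠ 0 := left_ne_zero_of_mul ha
  have ha2 : w.2.1 ≠ 0 := right_ne_zero_of_mul ha
  by_cases h0 : rM w.1 = 0
  · right
    exact ⟨⟨ha1, h0⟩, trivial⟩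
  · left
    have hg := g_pos
    have hM1 : 0 < rM w.1 := lt_of_le_of_ne hM.1 (Ne.symm h0)
    have hM2 : 0 < rM w.2 := by
      by_contra hcon
      push Not at hcon
      have := hM.2.2.1
      nlinarith [mul_pos hg hg, hM.2.1]
    have hP1 : 0 < rP w.1 := by
      refine lt_of_le_of_ne hP.1 (fun h => ?_)
      have h2 : w.1.2.1 ^ 2 - w.1.1 * w.1.2.2.1 = 0 := h.symm
      have h3 : rM w.1 = -(w.1.2.1 * w.1.2.2.1 - w.1.1 * w.1.2.2.2) ^ 2 := by
        unfold rM
        rw [h2]; ring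
      nlinarith [sq_nonneg (w.1.2.1 * w.1.2.2.1 - w.1.1 * w.1.2.2.2)]
    have hP2 : 0 < rP w.2 := by
      by_contra hcon
      push Not at hcon
      have := hP.2.2.1
      nlinarith [mul_pos hg hg, hP.2.1]
    have hs5 : 0 < Real.sqrt 5 := Real.sqrt_pos.2 (by norm_num)
    have hsub : Real.goldenRatio - Real.goldenConj = Real.sqrt 5 := Real.goldenRatio_sub_goldenConj
    have hx : w.1.2.1 / w.1.1 = s + t * Real.goldenRatio := by
      rw [hb1, mul_div_cancel_left₀ _ ha1]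
    have hy : w.2.2.1 / w.2.1 = s + t * Real.goldenConj := by
      rw [hb2, mul_div_cancel_left₀ _ ha2]
    have hxy : w.1.2.1 / w.1.1 - w.2.2.1 / w.2.1 = t * Real.sqrt 5 := by
      rw [hx, hy, ← hsub]; ring
    have hxs : w.1.2.1 / w.1.1 - g * (w.1.2.1 / w.1.1 - w.2.2.1 / w.2.1) / Real.sqrt 5 = s := by
      rw [hxy, hx]
      field_simp
      ring
    refine ⟨⟨lt_of_le_of_ne h1 (Ne.symm ha1), hX, hP1, hM1⟩, ⟨ha2, hP2, hM2⟩, ⟨?_, ?_⟩⟩
    · change 0 ≤ w.1.2.1 / w.1.1 - w.2.2.1 / w.2.1 ∧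
        w.1.2.1 / w.1.1 - w.2.2.1 / w.2.1 ≤ Real.sqrt 5 ∧
        0 ≤ w.1.2.1 / w.1.1 - g * (w.1.2.1 / w.1.1 - w.2.2.1 / w.2.1) / Real.sqrt 5 ∧
        w.1.2.1 / w.1.1 - g * (w.1.2.1 / w.1.1 - w.2.2.1 / w.2.1) / Real.sqrt 5 ≤ 1
      rw [hxs, hxy]
      exact ⟨by positivity, by nlinarith, hs0, hs1⟩
    · exact ⟨hP1, hP2, hP, h5, hM1, hM2, hM, h6⟩

theorem vol (hC : ChvStmt) : VolStmt := by
  intro C' η hη
  have hnull : volume (({w : ℝ × ℝ × ℝ × ℝ | w.1 ≠ 0 ∧ rM w = 0} ×ˢ univ : Set R8)) = 0 := by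
    rw [Measure.volume_eq_prod, Measure.prod_prod, null_rM, zero_mul]
  refine (measure_mono (reg_subset C' η hη)).trans ((measure_union_le _ _).trans ?_)
  rw [hnull, add_zero]
  -- the integral over the second place
  set G : ℝ × ℝ × ℝ → ENNReal := fun u => ∫⁻ v : ℝ × ℝ × ℝ in Qd,
    Es.indicator 1 (u, v) * ENNReal.ofReal (Real.pi / Real.sqrt v.2.2) with hG
  have hEm : Measurable (fun q : (ℝ × ℝ × ℝ) × (ℝ × ℝ × ℝ) =>
      Es.indicator (1 : (ℝ × ℝ × ℝ) × (ℝ × ℝ × ℝ) → ENNReal) q) :=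
    measurable_one.indicator measurableSet_Es
  have hwm : Measurable (fun v : ℝ × ℝ × ℝ => ENNReal.ofReal (Real.pi / Real.sqrt v.2.2)) := by
    fun_prop
  have hGm : Measurable G := by
    have h1 : Measurable (fun q : (ℝ × ℝ × ℝ) × (ℝ × ℝ × ℝ) =>
        Es.indicator (1 : (ℝ × ℝ × ℝ) × (ℝ × ℝ × ℝ) → ENNReal) q *
          ENNReal.ofReal (Real.pi / Real.sqrt q.2.2.2)) :=
      hEm.mul (hwm.comp measurable_snd)
    exact h1.lintegral_prod_right'
  have h1 : volume Ss = ∫⁻ x in A1, G (ph x) := by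
    rw [Measure.volume_eq_prod, Measure.prod_apply measurableSet_Ss,
      ← lintegral_indicator measurableSet_A1]
    refine lintegral_congr (fun x => ?_)
    by_cases hx : x ∈ A1
    · rw [indicator_of_mem hx]
      have h2 := (hC (fun v => Es.indicator 1 (ph x, v)) (hEm.comp measurable_prodMk_left)).2
      have h3 : G (ph x) = ∫⁻ u : ℝ × ℝ × ℝ in {u | 0 < u.2.1 ∧ 0 < u.2.2},
          Es.indicator 1 (ph x, u) * ENNReal.ofReal (Real.pi / Real.sqrt u.2.2) := rfl
      rw [h3, ← h2]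
      change volume (Prod.mk x ⁻¹' Ss) = ∫⁻ w : ℝ × ℝ × ℝ × ℝ in A2, Es.indicator 1 (ph x, ph w)
      rw [← lintegral_indicator measurableSet_A2]
      have h4 : MeasurableSet (Prod.mk x ⁻¹' Ss) := measurable_prodMk_left measurableSet_Ss
      rw [← lintegral_indicator_one h4]
      refine lintegral_congr (fun y => ?_)
      by_cases hy : y ∈ A2
      · rw [indicator_of_mem hy]
        by_cases hE : (ph x, ph y) ∈ Es
        · have h5 : y ∈ Prod.mk x ⁻¹' Ss := ⟨hx, hy, hE⟩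
          rw [indicator_of_mem h5, indicator_of_mem hE]
          rfl
        · have h5 : y ∉ Prod.mk x ⁻¹' Ss := fun h => hE h.2.2
          rw [indicator_of_notMem h5, indicator_of_notMem hE]
      · have h5 : y ∉ Prod.mk x ⁻¹' Ss := fun h => hy h.2.1
        rw [indicator_of_notMem hy, indicator_of_notMem h5]
    · rw [indicator_of_notMem hx]
      have h2 : Prod.mk x ⁻¹' Ss = ∅ := by
        rw [eq_empty_iff_forall_notMem]
        intro y hy
        exact hx hy.1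
      rw [h2, measure_empty]
  have h2 : volume Ss = ∫⁻ u : ℝ × ℝ × ℝ in Qd,
      G u * ENNReal.ofReal (Real.pi / (4 * Real.sqrt u.2.2)) := by
    rw [h1]
    exact (hC G hGm).1
  rw [h2]
  have h3 : ∀ u : ℝ × ℝ × ℝ, G u * ENNReal.ofReal (Real.pi / (4 * Real.sqrt u.2.2)) ≤
      (∫⁻ a : ℝ, Pl.indicator 1 (u.1, a)) * ∫⁻ b : ℝ × ℝ, Bf (u.2, b) := by
    intro u
    have hm1 : Measurable (fun v : ℝ × ℝ × ℝ => Es.indicator (1 : (ℝ × ℝ × ℝ) × (ℝ × ℝ × ℝ) → ENNReal) (u, v) *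
        ENNReal.ofReal (Real.pi / Real.sqrt v.2.2)) :=
      (hEm.comp measurable_prodMk_left).mul hwm
    have hm2 : Measurable (fun a : ℝ => Pl.indicator (1 : ℝ × ℝ → ENNReal) (u.1, a)) :=
      (measurable_one.indicator measurableSet_Pl).comp measurable_prodMk_left
    have hm3 : Measurable (fun b : ℝ × ℝ => Bf (u.2, b)) :=
      measurable_Bf.comp measurable_prodMk_left
    rw [hG]
    dsimp only
    rw [← lintegral_mul_const _ hm1, ← lintegral_prod_mul hm2.aemeasurable hm3.aemeasurable]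
    refine (setLIntegral_le_lintegral _ _).trans ?_
    rw [← Measure.volume_eq_prod]
    refine lintegral_mono (fun v => ?_)
    by_cases hE : (u, v) ∈ Es
    · have h4 : (u.1, v.1) ∈ Pl := hE.1
      have h5 : (u.2, v.2) ∈ Bs := hE.2
      unfold Bf
      rw [indicator_of_mem hE, indicator_of_mem h4, indicator_of_mem h5]
      simp only [Pi.one_apply, one_mul, le_refl]
    · rw [indicator_of_notMem hE, zero_mul, zero_mul]
      exact zero_le
  have hm4 : Measurable (fun x : ℝ => ∫⁻ a : ℝ, Pl.indicator (1 : ℝ × ℝ → ENNReal) (x, a)) :=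
    (measurable_one.indicator measurableSet_Pl).lintegral_prod_right'
  have hm5 : Measurable (fun x : ℝ × ℝ => ∫⁻ b : ℝ × ℝ, Bf (x, b)) :=
    measurable_Bf.lintegral_prod_right'
  calc ∫⁻ u : ℝ × ℝ × ℝ in Qd, G u * ENNReal.ofReal (Real.pi / (4 * Real.sqrt u.2.2))
      ≤ ∫⁻ u : ℝ × ℝ × ℝ, G u * ENNReal.ofReal (Real.pi / (4 * Real.sqrt u.2.2)) :=
        setLIntegral_le_lintegral _ _
    _ ≤ ∫⁻ u : ℝ × ℝ × ℝ, (∫⁻ a : ℝ, Pl.indicator 1 (u.1, a)) * ∫⁻ b : ℝ × ℝ, Bf (u.2, b) :=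
        lintegral_mono h3
    _ = (∫⁻ x : ℝ, ∫⁻ a : ℝ, Pl.indicator 1 (x, a)) *
          ∫⁻ x : ℝ × ℝ, ∫⁻ b : ℝ × ℝ, Bf (x, b) := by
        rw [← lintegral_prod_mul hm4.aemeasurable hm5.aemeasurable, ← Measure.volume_eq_prod]
    _ ≤ ENNReal.ofReal (Real.sqrt 5) * ENNReal.ofReal (Real.pi ^ 2 * Real.log g ^ 2 / 2) := by
        gcongr
        · exact pl_area
        · exact b_le
    _ = ENNReal.ofReal (Real.sqrt 5 * Real.pi ^ 2 * Real.log g ^ 2 / 2) := by
        rw [← ENNReal.ofReal_mul (Real.sqrt_nonneg _)]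
        congr 1
        ring

end Pool.Agent.Leo4.H87
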