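import Pool.Agent.Leo4.Stmts

/-!
# VOL: the volume of the region
-/

set_option autoImplicit false

open MeasureTheory Set Function

namespace Pool.Agent.Leo4.H87

theorem g_pos : 0 < g := Real.goldenRatio_pos

theorem one_lt_g : 1 < g := Real.one_lt_goldenRatio

/-- pairs with bounded product -/
def At (τ : ℝ) : Set (ℝ × ℝ) := {q | 0 < q.1 ∧ 0 < q.2 ∧ Bal q.1 q.2 ∧ q.1 * q.2 ≤ τ}

theorem measurableSet_Bal {α : Type*} [MeasurableSpace α] {f h : α → ℝ} (hf : Measurable f)
    (hh : Measurable h) : MeasurableSet {x | Bal (f x) (h x)} := by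
  unfold Bal
  have h1 : MeasurableSet {x | 0 ≤ f x} := measurableSet_le measurable_const hf
  have h2 : MeasurableSet {x | 0 ≤ h x} := measurableSet_le measurable_const hh
  have h3 : MeasurableSet {x | f x ≤ g ^ 2 * h x} := measurableSet_le hf (hh.const_mul _)
  have h4 : MeasurableSet {x | h x ≤ g ^ 2 * f x} := measurableSet_le hh (hf.const_mul _)
  exact h1.inter (h2.inter (h3.inter h4))

/-- the area between two rays under a hyperbola -/
theorem area_le (τ : ℝ) (hτ : 0 < τ) :
    ∫⁻ x : ℝ, ∫⁻ y : ℝ, (At τ).indicator 1 (x, y) ≤ ENNReal.ofReal (2 * τ * Real.log g) := by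
  have hg := g_pos
  have hg1 := one_lt_g
  set r : ℝ := Real.sqrt τ with hr
  have hr0 : 0 < r := Real.sqrt_pos.2 hτ
  have hr2 : r ^ 2 = τ := Real.sq_sqrt hτ.le
  set a : ℝ := r / g with ha
  set b : ℝ := g * r with hb
  have ha0 : 0 < a := div_pos hr0 hg
  have hab : a ≤ b := by
    rw [ha, hb, div_le_iff₀ hg]
    nlinarith [mul_pos hg hr0]
  have hb0 : 0 < b := ha0.trans_le hab
  have hag : a ^ 2 * g ^ 2 = τ := by
    rw [ha, div_pow, div_mul_cancel₀ _ (by positivity), hr2]
  have hbg : b ^ 2 = τ * g ^ 2 := by
    rw [hb, mul_pow, hr2]; ring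
  have hint : ∀ x : ℝ, ∫⁻ y : ℝ, (At τ).indicator 1 (x, y) = volume {y : ℝ | (x, y) ∈ At τ} := by
    intro x
    have h1 : (fun y : ℝ => (At τ).indicator (1 : ℝ × ℝ → ENNReal) (x, y)) =
        ({y : ℝ | (x, y) ∈ At τ}).indicator 1 := by
      funext y
      rfl
    rw [h1, lintegral_indicator_one]
    exact measurable_prodMk_left (((measurableSet_lt measurable_const measurable_fst).inter
      ((measurableSet_lt measurable_const measurable_snd).inter
        ((measurableSet_Bal measurable_fst measurable_snd).inter
          (measurableSet_le (measurable_fst.mul measurable_snd) measurable_const)))))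
  have hbound : ∀ x : ℝ, volume {y : ℝ | (x, y) ∈ At τ} ≤
      (Ioc 0 a).indicator (fun x => ENNReal.ofReal (g ^ 2 * x - x / g ^ 2)) x +
        (Ioc a b).indicator (fun x => ENNReal.ofReal (τ / x - x / g ^ 2)) x := by
    intro x
    by_cases hx : 0 < x
    swap
    · have : {y : ℝ | (x, y) ∈ At τ} = ∅ := by
        ext y
        simp only [At, mem_setOf_eq, mem_empty_iff_false, iff_false]
        exact fun h => hx h.1
      rw [this, measure_empty]
      exact zero_le
    have hsub : {y : ℝ | (x, y) ∈ At τ} ⊆ Icc (x / g ^ 2) (min (g ^ 2 * x) (τ / x)) := by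
      intro y hy
      obtain ⟨-, -, hB, hp⟩ := hy
      obtain ⟨-, -, h3, h4⟩ := hB
      refine ⟨?_, le_min h4 ?_⟩
      · rw [div_le_iff₀ (by positivity)]
        linarith
      · rw [le_div_iff₀ hx]
        linarith
    by_cases hxa : x ≤ a
    · have hm : x ∈ Ioc 0 a := ⟨hx, hxa⟩
      have hm' : x ∉ Ioc a b := fun h => absurd h.1 (not_lt.2 hxa)
      rw [indicator_of_mem hm, indicator_of_notMem hm', add_zero]
      refine (measure_mono (hsub.trans (Icc_subset_Icc_right (min_le_left _ _)))).trans ?_
      rw [Real.volume_Icc]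
    · push Not at hxa
      by_cases hxb : x ≤ b
      · have hm : x ∈ Ioc a b := ⟨hxa, hxb⟩
        have hm' : x ∉ Ioc 0 a := fun h => absurd h.2 (not_le.2 hxa)
        rw [indicator_of_notMem hm', indicator_of_mem hm, zero_add]
        refine (measure_mono (hsub.trans (Icc_subset_Icc_right (min_le_right _ _)))).trans ?_
        rw [Real.volume_Icc]
      · push Not at hxb
        have : {y : ℝ | (x, y) ∈ At τ} = ∅ := by
          rw [eq_empty_iff_forall_notMem]
          intro y hy
          obtain ⟨h1, h2⟩ := hsub hy
          have h3 : x / g ^ 2 ≤ τ / x := h1.trans (h2.trans (min_le_right _ _))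
          rw [div_le_div_iff₀ (by positivity) hx] at h3
          have h4 : b * b < x * x := mul_self_lt_mul_self hb0.le hxb
          nlinarith
        rw [this, measure_empty]
        exact zero_le
  calc ∫⁻ x : ℝ, ∫⁻ y : ℝ, (At τ).indicator 1 (x, y)
      ≤ ∫⁻ x : ℝ, ((Ioc 0 a).indicator (fun x => ENNReal.ofReal (g ^ 2 * x - x / g ^ 2)) x +
        (Ioc a b).indicator (fun x => ENNReal.ofReal (τ / x - x / g ^ 2)) x) := by
        refine lintegral_mono (fun x => ?_)
        rw [hint]
        exact hbound x
    _ = (∫⁻ x in Ioc 0 a, ENNReal.ofReal (g ^ 2 * x - x / g ^ 2)) +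
        ∫⁻ x in Ioc a b, ENNReal.ofReal (τ / x - x / g ^ 2) := by
        rw [lintegral_add_left, lintegral_indicator measurableSet_Ioc,
          lintegral_indicator measurableSet_Ioc]
        apply Measurable.indicator _ measurableSet_Ioc
        fun_prop
    _ = ENNReal.ofReal (∫ x in (0 : ℝ)..a, (g ^ 2 * x - x / g ^ 2)) +
        ENNReal.ofReal (∫ x in a..b, (τ * x⁻¹ - x / g ^ 2)) := by
        congr 1
        · rw [intervalIntegral.integral_of_le ha0.le, ofReal_integral_eq_lintegral_ofReal]
          · exact (Continuous.integrableOn_Icc (by fun_prop)).mono_set Ioc_subset_Icc_self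
          · filter_upwards [ae_restrict_mem measurableSet_Ioc] with x hx
            have h1 : x / g ^ 2 ≤ x := div_le_self hx.1.le (by nlinarith)
            have h2 : x ≤ g ^ 2 * x := by nlinarith [hx.1, mul_pos hx.1 (sub_pos.2 hg1)]
            change 0 ≤ g ^ 2 * x - x / g ^ 2
            linarith
        · rw [intervalIntegral.integral_of_le hab, ofReal_integral_eq_lintegral_ofReal]
          · simp only [div_eq_mul_inv]
          · have hc : ContinuousOn (fun x : ℝ => τ * x⁻¹ - x / g ^ 2) (Icc a b) := by
              apply ContinuousOn.sub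
              · apply continuousOn_const.mul
                exact continuousOn_inv₀.mono (fun x hx => (ha0.trans_le hx.1).ne')
              · exact continuousOn_id.div_const _
            exact hc.integrableOn_Icc.mono_set Ioc_subset_Icc_self
          · filter_upwards [ae_restrict_mem measurableSet_Ioc] with x hx
            have hx0 : 0 < x := ha0.trans hx.1
            change 0 ≤ τ * x⁻¹ - x / g ^ 2
            rw [sub_nonneg, ← div_eq_mul_inv, div_le_div_iff₀ (by positivity) hx0]
            have : x * x ≤ b * b := mul_self_le_mul_self hx0.le hx.2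
            nlinarith
    _ = ENNReal.ofReal (2 * τ * Real.log g) := by
        have e1 : ∫ x in (0 : ℝ)..a, (g ^ 2 * x - x / g ^ 2) =
            (g ^ 2 - 1 / g ^ 2) * (a ^ 2 / 2) := by
          have h1 : ∀ x : ℝ, g ^ 2 * x - x / g ^ 2 = (g ^ 2 - 1 / g ^ 2) * x := fun x => by ring
          simp only [h1]
          rw [intervalIntegral.integral_const_mul, integral_id]
          ring
        have e2 : ∫ x in a..b, (τ * x⁻¹ - x / g ^ 2) =
            τ * Real.log (b / a) - (b ^ 2 - a ^ 2) / 2 / g ^ 2 := by
          rw [intervalIntegral.integral_sub, intervalIntegral.integral_const_mul,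
            integral_inv_of_pos ha0 hb0, intervalIntegral.integral_div, integral_id]
          · apply ContinuousOn.intervalIntegrable
            apply continuousOn_const.mul
            rw [uIcc_of_le hab]
            exact continuousOn_inv₀.mono (fun x hx => (ha0.trans_le hx.1).ne')
          · exact (continuous_id.div_const _).intervalIntegrable _ _
        have e3 : Real.log (b / a) = 2 * Real.log g := by
          rw [hb, ha, show g * r / (r / g) = g ^ 2 by field_simp, Real.log_pow]
          norm_num
        have h1 : 0 ≤ (g ^ 2 - 1 / g ^ 2) * (a ^ 2 / 2) := by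
          apply mul_nonneg _ (by positivity)
          rw [sub_nonneg, div_le_iff₀ (by positivity)]
          have hg2 : 1 ≤ g ^ 2 := by nlinarith
          nlinarith
        have hkey : (g ^ 2 - 1 / g ^ 2) * (a ^ 2 / 2) +
            (τ * Real.log (b / a) - (b ^ 2 - a ^ 2) / 2 / g ^ 2) = 2 * τ * Real.log g := by
          rw [e3, hbg, ← hag]
          field_simp
          ring
        have h2 : 0 ≤ τ * Real.log (b / a) - (b ^ 2 - a ^ 2) / 2 / g ^ 2 := by
          rw [← e2]
          apply intervalIntegral.integral_nonneg hab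
          intro x hx
          have hx0 : 0 < x := ha0.trans_le hx.1
          rw [sub_nonneg, ← div_eq_mul_inv, div_le_div_iff₀ (by positivity) hx0]
          have : x * x ≤ b * b := mul_self_le_mul_self hx0.le hx.2
          nlinarith
        rw [e1, e2, ← ENNReal.ofReal_add h1 h2, hkey]

end Pool.Agent.Leo4.H87
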