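import Pool.Agent.Helper87_Leo4.Vol

/-!
# VOL: the volume of the region, second part
-/

set_option autoImplicit false

open MeasureTheory Set Function

namespace Pool.Agent.Leo4.H87

/-- the parallelogram -/
def Pl : Set (ℝ × ℝ) := {q | 0 ≤ q.1 - q.2 ∧ q.1 - q.2 ≤ Real.sqrt 5 ∧
  0 ≤ q.1 - g * (q.1 - q.2) / Real.sqrt 5 ∧ q.1 - g * (q.1 - q.2) / Real.sqrt 5 ≤ 1}

theorem measurableSet_Pl : MeasurableSet Pl := by
  have h1 : MeasurableSet {q : ℝ × ℝ | 0 ≤ q.1 - q.2} :=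
    measurableSet_le (by fun_prop) (by fun_prop)
  have h2 : MeasurableSet {q : ℝ × ℝ | q.1 - q.2 ≤ Real.sqrt 5} :=
    measurableSet_le (by fun_prop) (by fun_prop)
  have h3 : MeasurableSet {q : ℝ × ℝ | 0 ≤ q.1 - g * (q.1 - q.2) / Real.sqrt 5} :=
    measurableSet_le (by fun_prop) (by fun_prop)
  have h4 : MeasurableSet {q : ℝ × ℝ | q.1 - g * (q.1 - q.2) / Real.sqrt 5 ≤ 1} :=
    measurableSet_le (by fun_prop) (by fun_prop)
  exact h1.inter (h2.inter (h3.inter h4))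

theorem pl_area : ∫⁻ x : ℝ, ∫⁻ y : ℝ, Pl.indicator 1 (x, y) ≤ ENNReal.ofReal (Real.sqrt 5) := by
  set S : Set (ℝ × ℝ) := {q | 0 ≤ q.2 ∧ q.2 ≤ Real.sqrt 5 ∧
    0 ≤ q.1 - g * q.2 / Real.sqrt 5 ∧ q.1 - g * q.2 / Real.sqrt 5 ≤ 1} with hS
  have hSm : MeasurableSet S := by
    have h1 : MeasurableSet {q : ℝ × ℝ | 0 ≤ q.2} :=
      measurableSet_le (by fun_prop) (by fun_prop)
    have h2 : MeasurableSet {q : ℝ × ℝ | q.2 ≤ Real.sqrt 5} :=
      measurableSet_le (by fun_prop) (by fun_prop)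
    have h3 : MeasurableSet {q : ℝ × ℝ | 0 ≤ q.1 - g * q.2 / Real.sqrt 5} :=
      measurableSet_le (by fun_prop) (by fun_prop)
    have h4 : MeasurableSet {q : ℝ × ℝ | q.1 - g * q.2 / Real.sqrt 5 ≤ 1} :=
      measurableSet_le (by fun_prop) (by fun_prop)
    exact h1.inter (h2.inter (h3.inter h4))
  have h1 : ∀ x : ℝ, ∫⁻ y : ℝ, Pl.indicator (1 : ℝ × ℝ → ENNReal) (x, y) =
      ∫⁻ z : ℝ, S.indicator 1 (x, z) := by
    intro x
    rw [← lintegral_sub_left_eq_self (fun y : ℝ => Pl.indicator (1 : ℝ × ℝ → ENNReal) (x, y)) x]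
    refine lintegral_congr (fun z => ?_)
    by_cases hz : (x, z) ∈ S
    · have hz' : (x, x - z) ∈ Pl := by
        simpa only [Pl, hS, mem_ofPred_eq, sub_sub_cancel] using hz
      rw [indicator_of_mem hz, indicator_of_mem hz']
      rfl
    · have hz' : (x, x - z) ∉ Pl := by
        simpa only [Pl, hS, mem_ofPred_eq, sub_sub_cancel] using hz
      rw [indicator_of_notMem hz, indicator_of_notMem hz']
  simp only [h1]
  rw [lintegral_lintegral_swap]
  · have h2 : ∀ z : ℝ, ∫⁻ x : ℝ, S.indicator (1 : ℝ × ℝ → ENNReal) (x, z) ≤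
        (Icc 0 (Real.sqrt 5)).indicator 1 z := by
      intro z
      by_cases hz : z ∈ Icc 0 (Real.sqrt 5)
      · rw [indicator_of_mem hz]
        have h3 : ∀ x : ℝ, S.indicator (1 : ℝ × ℝ → ENNReal) (x, z) ≤
            (Icc (g * z / Real.sqrt 5) (g * z / Real.sqrt 5 + 1)).indicator 1 x := by
          intro x
          by_cases hx : (x, z) ∈ S
          · have hx' : x ∈ Icc (g * z / Real.sqrt 5) (g * z / Real.sqrt 5 + 1) := by
              obtain ⟨-, -, h4, h5⟩ := hx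
              constructor
              · linarith
              · linarith
            rw [indicator_of_mem hx, indicator_of_mem hx']
            rfl
          · rw [indicator_of_notMem hx]
            exact zero_le
        refine (lintegral_mono h3).trans ?_
        rw [lintegral_indicator_one measurableSet_Icc, Real.volume_Icc, add_sub_cancel_left,
          ENNReal.ofReal_one]
        rfl
      · rw [indicator_of_notMem hz]
        have h3 : ∀ x : ℝ, S.indicator (1 : ℝ × ℝ → ENNReal) (x, z) = 0 := by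
          intro x
          apply indicator_of_notMem
          intro h
          exact hz ⟨h.1, h.2.1⟩
        simp only [h3, lintegral_zero, le_refl]
    refine (lintegral_mono h2).trans ?_
    rw [lintegral_indicator_one measurableSet_Icc, Real.volume_Icc, sub_zero]
  · exact (measurable_one.indicator hSm).aemeasurable

/-- the set of `((P₁, M₁), (P₂, M₂))` -/
def Bs : Set ((ℝ × ℝ) × (ℝ × ℝ)) := {q | 0 < q.1.1 ∧ 0 < q.2.1 ∧ Bal q.1.1 q.2.1 ∧
  4 * (q.1.1 * q.2.1) ^ 2 ≤ q.1.2 * q.2.2 ∧ (q.1.2, q.2.2) ∈ At 1}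

theorem measurableSet_At (τ : ℝ) : MeasurableSet (At τ) :=
  (((measurableSet_lt measurable_const measurable_fst).inter
      ((measurableSet_lt measurable_const measurable_snd).inter
        ((measurableSet_Bal measurable_fst measurable_snd).inter
          (measurableSet_le (measurable_fst.mul measurable_snd) measurable_const)))))

theorem measurableSet_Bs : MeasurableSet Bs := by
  have h1 : MeasurableSet {q : (ℝ × ℝ) × (ℝ × ℝ) | 0 < q.1.1} :=
    measurableSet_lt (by fun_prop) (by fun_prop)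
  have h2 : MeasurableSet {q : (ℝ × ℝ) × (ℝ × ℝ) | 0 < q.2.1} :=
    measurableSet_lt (by fun_prop) (by fun_prop)
  have h3 : MeasurableSet {q : (ℝ × ℝ) × (ℝ × ℝ) | Bal q.1.1 q.2.1} :=
    measurableSet_Bal (by fun_prop) (by fun_prop)
  have h4 : MeasurableSet {q : (ℝ × ℝ) × (ℝ × ℝ) | 4 * (q.1.1 * q.2.1) ^ 2 ≤ q.1.2 * q.2.2} :=
    measurableSet_le (by fun_prop) (by fun_prop)
  have h5 : Measurable (fun q : (ℝ × ℝ) × (ℝ × ℝ) => (q.1.2, q.2.2)) := by fun_prop
  exact h1.inter (h2.inter (h3.inter (h4.inter (h5 (measurableSet_At 1)))))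

noncomputable def Bf (q : (ℝ × ℝ) × (ℝ × ℝ)) : ENNReal :=
  Bs.indicator (fun q => ENNReal.ofReal (Real.pi / Real.sqrt q.2.2) *
    ENNReal.ofReal (Real.pi / (4 * Real.sqrt q.1.2))) q

theorem measurable_Bf : Measurable Bf := by
  unfold Bf
  refine Measurable.indicator ?_ measurableSet_Bs
  fun_prop

theorem reorder (f : (ℝ × ℝ) × (ℝ × ℝ) → ENNReal) (hf : Measurable f) :
    ∫⁻ x : ℝ × ℝ, ∫⁻ y : ℝ × ℝ, f (x, y) =
      ∫⁻ m₁ : ℝ, ∫⁻ m₂ : ℝ, ∫⁻ p₁ : ℝ, ∫⁻ p₂ : ℝ, f ((p₁, m₁), (p₂, m₂)) := by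
  have h1 : Measurable (fun x : ℝ × ℝ => ∫⁻ y : ℝ × ℝ, f (x, y)) := hf.lintegral_prod_right'
  rw [Measure.volume_eq_prod, lintegral_prod_symm _ (by exact h1.aemeasurable)]
  refine lintegral_congr (fun m₁ => ?_)
  have h2 : ∀ p₁ : ℝ, ∫⁻ y : ℝ × ℝ, f ((p₁, m₁), y) ∂(volume.prod volume) =
      ∫⁻ m₂ : ℝ, ∫⁻ p₂ : ℝ, f ((p₁, m₁), (p₂, m₂)) := by
    intro p₁
    rw [lintegral_prod_symm]
    exact (hf.comp measurable_prodMk_left).aemeasurable
  simp only [h2]
  rw [lintegral_lintegral_swap]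
  have h3 : Measurable (fun q : (ℝ × ℝ) × ℝ => f ((q.1.1, m₁), (q.2, q.1.2))) := by
    apply hf.comp
    fun_prop
  exact (h3.lintegral_prod_right' : Measurable fun q : ℝ × ℝ => ∫⁻ p₂ : ℝ,
    f ((q.1, m₁), (p₂, q.2))).aemeasurable

theorem b_le : ∫⁻ x : ℝ × ℝ, ∫⁻ y : ℝ × ℝ, Bf (x, y) ≤
    ENNReal.ofReal (Real.pi ^ 2 * Real.log g ^ 2 / 2) := by
  rw [reorder Bf measurable_Bf]
  have hlog : 0 < Real.log g := Real.log_pos one_lt_g
  have hpi := Real.pi_pos
  have h1 : ∀ m₁ m₂ : ℝ, ∫⁻ p₁ : ℝ, ∫⁻ p₂ : ℝ, Bf ((p₁, m₁), (p₂, m₂)) ≤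
      (At 1).indicator 1 (m₁, m₂) * ENNReal.ofReal (Real.pi ^ 2 / 4 * Real.log g) := by
    intro m₁ m₂
    by_cases hm : (m₁, m₂) ∈ At 1
    · rw [indicator_of_mem hm]
      have hm1 : 0 < m₁ := hm.1
      have hm2 : 0 < m₂ := hm.2.1
      set c : ENNReal := ENNReal.ofReal (Real.pi / Real.sqrt m₂) *
        ENNReal.ofReal (Real.pi / (4 * Real.sqrt m₁)) with hc
      set τ : ℝ := Real.sqrt (m₁ * m₂) / 2 with hτ
      have hs : 0 < Real.sqrt (m₁ * m₂) := Real.sqrt_pos.2 (mul_pos hm1 hm2)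
      have hτ0 : 0 < τ := by positivity
      have h2 : ∀ p₁ p₂ : ℝ, Bf ((p₁, m₁), (p₂, m₂)) ≤ c * (At τ).indicator 1 (p₁, p₂) := by
        intro p₁ p₂
        unfold Bf
        by_cases hp : ((p₁, m₁), (p₂, m₂)) ∈ Bs
        · rw [indicator_of_mem hp]
          obtain ⟨hp1, hp2, hB, h4, -⟩ := hp
          have hp' : (p₁, p₂) ∈ At τ := by
            refine ⟨hp1, hp2, hB, ?_⟩
            change p₁ * p₂ ≤ Real.sqrt (m₁ * m₂) / 2
            rw [le_div_iff₀ (by norm_num)]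
            apply Real.le_sqrt_of_sq_le
            change 4 * (p₁ * p₂) ^ 2 ≤ m₁ * m₂ at h4
            nlinarith
          rw [indicator_of_mem hp', Pi.one_apply, mul_one]
        · rw [indicator_of_notMem hp]
          exact zero_le
      calc ∫⁻ p₁ : ℝ, ∫⁻ p₂ : ℝ, Bf ((p₁, m₁), (p₂, m₂))
          ≤ ∫⁻ p₁ : ℝ, ∫⁻ p₂ : ℝ, c * (At τ).indicator 1 (p₁, p₂) :=
            lintegral_mono (fun p₁ => lintegral_mono (fun p₂ => h2 p₁ p₂))
        _ = c * ∫⁻ p₁ : ℝ, ∫⁻ p₂ : ℝ, (At τ).indicator 1 (p₁, p₂) := by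
            have hmeas : Measurable (fun q : ℝ × ℝ => (At τ).indicator (1 : ℝ × ℝ → ENNReal) q) :=
              measurable_one.indicator (measurableSet_At τ)
            rw [← lintegral_const_mul _ hmeas.lintegral_prod_right']
            refine lintegral_congr (fun p₁ => ?_)
            have h3 : Measurable (fun p₂ : ℝ => (At τ).indicator (1 : ℝ × ℝ → ENNReal) (p₁, p₂)) :=
              hmeas.comp measurable_prodMk_left
            rw [lintegral_const_mul _ h3]
        _ ≤ c * ENNReal.ofReal (2 * τ * Real.log g) := by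
            gcongr
            exact area_le τ hτ0
        _ = 1 * ENNReal.ofReal (Real.pi ^ 2 / 4 * Real.log g) := by
            have hs1 : 0 < Real.sqrt m₁ := Real.sqrt_pos.2 hm1
            have hs2 : 0 < Real.sqrt m₂ := Real.sqrt_pos.2 hm2
            rw [hc, ← ENNReal.ofReal_mul (by positivity), ← ENNReal.ofReal_mul (by positivity),
              one_mul]
            congr 1
            rw [hτ, Real.sqrt_mul hm1.le]
            field_simp
    · rw [indicator_of_notMem hm, zero_mul]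
      have h2 : ∀ p₁ p₂ : ℝ, Bf ((p₁, m₁), (p₂, m₂)) = 0 := by
        intro p₁ p₂
        unfold Bf
        apply indicator_of_notMem
        intro h
        exact hm h.2.2.2.2
      simp only [h2, lintegral_zero, le_refl]
  have hmeas : Measurable (fun q : ℝ × ℝ => (At 1).indicator (1 : ℝ × ℝ → ENNReal) q) :=
    measurable_one.indicator (measurableSet_At 1)
  calc ∫⁻ m₁ : ℝ, ∫⁻ m₂ : ℝ, ∫⁻ p₁ : ℝ, ∫⁻ p₂ : ℝ, Bf ((p₁, m₁), (p₂, m₂))
      ≤ ∫⁻ m₁ : ℝ, ∫⁻ m₂ : ℝ, (At 1).indicator 1 (m₁, m₂) *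
          ENNReal.ofReal (Real.pi ^ 2 / 4 * Real.log g) :=
        lintegral_mono (fun m₁ => lintegral_mono (fun m₂ => h1 m₁ m₂))
    _ = (∫⁻ m₁ : ℝ, ∫⁻ m₂ : ℝ, (At 1).indicator 1 (m₁, m₂)) *
          ENNReal.ofReal (Real.pi ^ 2 / 4 * Real.log g) := by
        rw [← lintegral_mul_const _ hmeas.lintegral_prod_right']
        refine lintegral_congr (fun m₁ => ?_)
        have h3 : Measurable (fun m₂ : ℝ => (At 1).indicator (1 : ℝ × ℝ → ENNReal) (m₁, m₂)) :=
          hmeas.comp measurable_prodMk_left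
        rw [lintegral_mul_const _ h3]
    _ ≤ ENNReal.ofReal (2 * 1 * Real.log g) * ENNReal.ofReal (Real.pi ^ 2 / 4 * Real.log g) := by
        gcongr
        exact area_le 1 one_pos
    _ = ENNReal.ofReal (Real.pi ^ 2 * Real.log g ^ 2 / 2) := by
        rw [← ENNReal.ofReal_mul (by positivity)]
        congr 1
        ring

end Pool.Agent.Leo4.H87
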